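/-
Pencil lemma for MP_3acf9a_ag (job FANO-E, posted by helper49).
For s = 1 + I the pencil of quadrics attached to conj s is not equivalent to the one attached to s.
-/
import Mathlib

set_option autoImplicit false

namespace Pool.Agent.Helper92.Fano

open Matrix

/-- matrix of the quadratic form `l (e0 e3 - e1 e2) + m (e4^2 - e0^2 - s e1^2 - s e2^2 - e3^2)` -/
noncomputable def Q (s l m : ℂ) : Matrix (Fin 5) (Fin 5) ℂ :=
  !![-m, 0, 0, l / 2, 0;
     0, -(s * m), -(l / 2), 0, 0;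
     0, -(l / 2), -(s * m), 0, 0;
     l / 2, 0, 0, -m, 0;
     0, 0, 0, 0, m]

theorem det_Q (s l m : ℂ) :
    (Q s l m).det = m * (m ^ 2 - l ^ 2 / 4) * (s ^ 2 * m ^ 2 - l ^ 2 / 4) := by
  simp [Q, Matrix.det_succ_row_zero, Fin.sum_univ_succ, Fin.succAbove]
  ring

theorem Q_lin (s l m l' m' a b : ℂ) :
    Q s (a * l + b * l') (a * m + b * m') = a • Q s l m + b • Q s l' m' := by
  ext i j
  fin_cases i <;> fin_cases j <;> simp [Q] <;> ring

theorem Q_eq_zero {s l m : ℂ} (h : Q s l m = 0) : l = 0 ∧ m = 0 := by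
  have h1 := congrFun (congrFun h 0) 3
  have h2 := congrFun (congrFun h 4) 4
  simp [Q] at h1 h2
  exact ⟨h1, h2⟩

abbrev G := GaussianInt

/-- bracket -/
def br (u v : G × G) : G := u.1 * v.2 - v.1 * u.2

/-- the number 1 + i -/
def sg : G := ⟨1, 1⟩

/-- the number 1 - i -/
def sc : G := ⟨1, -1⟩

/-- the five degenerate members of the pencil for s -/
def V : Fin 5 → G × G
  | 0 => (1, 0)
  | 1 => (2, 1)
  | 2 => (-2, 1)
  | 3 => (2 * sg, 1)
  | 4 => (-2 * sg, 1)

/-- four degenerate members of the pencil for conj s -/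
def U : Fin 4 → G × G
  | 0 => (2, 1)
  | 1 => (-2, 1)
  | 2 => (2 * sc, 1)
  | 3 => (-2 * sc, 1)

theorem key : ∀ k : Fin 5, ∀ k1 : Fin 5, ∀ k2 : Fin 5, ∀ k3 : Fin 5,
    br (V k) (V k1) ≠ 0 → br (V k) (V k2) ≠ 0 → br (V k) (V k3) ≠ 0 →
    br (V k1) (V k2) ≠ 0 → br (V k1) (V k3) ≠ 0 → br (V k2) (V k3) ≠ 0 →
    br (V k) (V k2) * br (V k1) (V k3) * (br (U 0) (U 3) * br (U 1) (U 2)) ≠
    br (V k) (V k3) * br (V k1) (V k2) * (br (U 0) (U 2) * br (U 1) (U 3)) := by
  decide +kernel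


/-- the complex number attached to a gaussian integer -/
noncomputable abbrev T (x : G) : ℂ := GaussianInt.toComplex x

theorem T_sg : T sg = 1 + Complex.I := by
  simp [T, sg, GaussianInt.toComplex_def]

theorem T_sc : T sc = 1 - Complex.I := by
  simp [T, sc, GaussianInt.toComplex_def]
  ring

theorem conj_s : starRingEnd ℂ (1 + Complex.I) = 1 - Complex.I := by
  simp; ring

theorem s_sq : (1 + Complex.I) ^ 2 = 2 * Complex.I := by
  have := Complex.I_sq
  linear_combination this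

/-- a degenerate member is a multiple of one of the five -/
theorem degen {x y : ℂ} (h : (Q (1 + Complex.I) x y).det = 0) :
    ∃ k : Fin 5, ∃ c : ℂ, x = c * T (V k).1 ∧ y = c * T (V k).2 := by
  rw [det_Q] at h
  have h' : y * ((y - x / 2) * (y + x / 2)) *
      (((1 + Complex.I) * y - x / 2) * ((1 + Complex.I) * y + x / 2)) = 0 := by
    rw [← h]; ring
  rcases mul_eq_zero.1 h' with h1 | h1
  · rcases mul_eq_zero.1 h1 with h2 | h2
    · exact ⟨0, x, by simp [V, T], by simp [V, T, h2]⟩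
    · rcases mul_eq_zero.1 h2 with h3 | h3
      · refine ⟨1, y, ?_, by simp [V, T]⟩
        simp only [V, T, map_ofNat]
        linear_combination -2 * h3
      · refine ⟨2, y, ?_, by simp [V, T]⟩
        simp only [V, T, map_neg, map_ofNat]
        linear_combination 2 * h3
  · rcases mul_eq_zero.1 h1 with h3 | h3
    · refine ⟨3, y, ?_, by simp [V, T]⟩
      have := T_sg
      simp only [T] at this
      simp only [V, T, map_mul, map_ofNat, this]
      linear_combination -2 * h3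
    · refine ⟨4, y, ?_, by simp [V, T]⟩
      have := T_sg
      simp only [T] at this
      simp only [V, T, map_mul, map_neg, map_ofNat, this]
      linear_combination 2 * h3

/-- the four chosen members for conj s are degenerate -/
theorem degenU (i : Fin 4) :
    (Q (1 - Complex.I) (T (U i).1) (T (U i).2)).det = 0 := by
  rw [det_Q]
  have h := T_sc
  simp only [T] at h
  fin_cases i <;> simp only [U, T, map_mul, map_neg, map_ofNat, map_one, h] <;> ring_nf

theorem T_br (u v : G × G) : T (br u v) = T u.1 * T v.2 - T v.1 * T u.2 := by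
  simp [T, br]

theorem T_inj {a b : G} (h : T a = T b) : a = b := GaussianInt.toComplex_injective h

theorem brU : br (U 0) (U 1) ≠ 0 ∧ br (U 0) (U 2) ≠ 0 ∧ br (U 0) (U 3) ≠ 0 ∧
    br (U 1) (U 2) ≠ 0 ∧ br (U 1) (U 3) ≠ 0 ∧ br (U 2) (U 3) ≠ 0 := by
  decide +kernel

theorem pencil : ∃ s : ℂ, s ≠ 0 ∧ s ^ 2 ≠ 1 ∧
    ¬ ∃ M : Matrix (Fin 5) (Fin 5) ℂ, M.det ≠ 0 ∧
      ∀ l m : ℂ, ∃ l' m' : ℂ, M * Q (starRingEnd ℂ s) l m * Mᵀ = Q s l' m' := by
  refine ⟨1 + Complex.I, ?_, ?_, ?_⟩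
  · intro h
    have := congrArg Complex.re h
    simp at this
  · intro h
    rw [s_sq] at h
    have := congrArg Complex.re h
    simp at this
  rintro ⟨M, hM, H⟩
  rw [conj_s] at H
  obtain ⟨p, q, h10⟩ := H 1 0
  obtain ⟨r, t, h01⟩ := H 0 1
  have hA : ∀ l m : ℂ, M * Q (1 - Complex.I) l m * Mᵀ =
      Q (1 + Complex.I) (l * p + m * r) (l * q + m * t) := by
    intro l m
    have h1 := Q_lin (1 - Complex.I) 1 0 0 1 l m
    have h2 := Q_lin (1 + Complex.I) p q r t l m
    rw [h2, ← h10, ← h01]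
    have : Q (1 - Complex.I) l m = l • Q (1 - Complex.I) 1 0 + m • Q (1 - Complex.I) 0 1 := by
      rw [← h1]; simp
    rw [this]
    simp [Matrix.mul_add, Matrix.add_mul]
  have hunit : IsUnit M := (Matrix.isUnit_iff_isUnit_det M).2 (isUnit_iff_ne_zero.2 hM)
  have hunitT : IsUnit Mᵀ := by
    rw [Matrix.isUnit_iff_isUnit_det, Matrix.det_transpose]
    exact isUnit_iff_ne_zero.2 hM
  have hinj : ∀ l m : ℂ, l * p + m * r = 0 → l * q + m * t = 0 → l = 0 ∧ m = 0 := by
    intro l m h1 h2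
    have h3 := hA l m
    rw [h1, h2] at h3
    have h4 : Q (1 + Complex.I) 0 0 = 0 := by
      ext i j
      fin_cases i <;> fin_cases j <;> simp [Q]
    rw [h4] at h3
    have h5 : M * Q (1 - Complex.I) l m = 0 := (hunitT.mul_left_eq_zero).1 h3
    have h6 : Q (1 - Complex.I) l m = 0 := (hunit.mul_right_eq_zero).1 h5
    exact Q_eq_zero h6
  have hD : p * t - r * q ≠ 0 := by
    intro h
    obtain ⟨ht, hq⟩ := hinj t (-q) (by linear_combination h) (by ring)
    obtain ⟨hr, hp⟩ := hinj r (-p) (by ring) (by linear_combination -h)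
    have hq' : q = 0 := by simpa using hq
    have hp' : p = 0 := by simpa using hp
    obtain ⟨h1, _⟩ := hinj 1 0 (by simp [hp']) (by simp [hq'])
    exact one_ne_zero h1
  have hdeg : ∀ i : Fin 4, ∃ k : Fin 5, ∃ c : ℂ,
      T (U i).1 * p + T (U i).2 * r = c * T (V k).1 ∧
      T (U i).1 * q + T (U i).2 * t = c * T (V k).2 := by
    intro i
    apply degen
    rw [← hA, Matrix.det_mul, Matrix.det_mul, degenU]
    simp
  choose k c hx hy using hdeg
  have hbr : ∀ i j : Fin 4, c i * c j * T (br (V (k i)) (V (k j))) =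
      (p * t - r * q) * T (br (U i) (U j)) := by
    intro i j
    rw [T_br, T_br]
    have e1 := hx i
    have e2 := hy i
    have e3 := hx j
    have e4 := hy j
    have : c i * c j * (T (V (k i)).1 * T (V (k j)).2 - T (V (k j)).1 * T (V (k i)).2) =
      (c i * T (V (k i)).1) * (c j * T (V (k j)).2) -
      (c j * T (V (k j)).1) * (c i * T (V (k i)).2) := by ring
    rw [this, ← e1, ← e2, ← e3, ← e4]
    ring
  obtain ⟨b01, b02, b03, b12, b13, b23⟩ := brU
  have hT : ∀ x : G, x ≠ 0 → T x ≠ 0 := by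
    intro x hx h
    exact hx (T_inj (by simpa [T] using h))
  have hne : ∀ i j : Fin 4, br (U i) (U j) ≠ 0 →
      c i ≠ 0 ∧ c j ≠ 0 ∧ br (V (k i)) (V (k j)) ≠ 0 := by
    intro i j hij
    have h1 : (p * t - r * q) * T (br (U i) (U j)) ≠ 0 := mul_ne_zero hD (hT _ hij)
    rw [← hbr i j] at h1
    refine ⟨?_, ?_, ?_⟩
    · intro h; apply h1; rw [h]; ring
    · intro h; apply h1; rw [h]; ring
    · intro h; apply h1; rw [h]; simp [T]
  obtain ⟨c0, c1, v01⟩ := hne 0 1 b01
  obtain ⟨-, c2, v02⟩ := hne 0 2 b02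
  obtain ⟨-, c3, v03⟩ := hne 0 3 b03
  obtain ⟨-, -, v12⟩ := hne 1 2 b12
  obtain ⟨-, -, v13⟩ := hne 1 3 b13
  obtain ⟨-, -, v23⟩ := hne 2 3 b23
  apply key (k 0) (k 1) (k 2) (k 3) v01 v02 v03 v12 v13 v23
  apply T_inj
  have hc : c 0 * c 1 * c 2 * c 3 ≠ 0 :=
    mul_ne_zero (mul_ne_zero (mul_ne_zero c0 c1) c2) c3
  apply mul_left_cancel₀ hc
  have e02 := hbr 0 2
  have e13 := hbr 1 3
  have e03 := hbr 0 3
  have e12 := hbr 1 2
  have hTm : ∀ x y : G, T (x * y) = T x * T y := by intro x y; simp [T]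
  rw [hTm, hTm, hTm, hTm, hTm, hTm]
  calc c 0 * c 1 * c 2 * c 3 *
        (T (br (V (k 0)) (V (k 2))) * T (br (V (k 1)) (V (k 3))) *
          (T (br (U 0) (U 3)) * T (br (U 1) (U 2))))
      = (c 0 * c 2 * T (br (V (k 0)) (V (k 2)))) * (c 1 * c 3 * T (br (V (k 1)) (V (k 3)))) *
          (T (br (U 0) (U 3)) * T (br (U 1) (U 2))) := by ring
    _ = (c 0 * c 3 * T (br (V (k 0)) (V (k 3)))) * (c 1 * c 2 * T (br (V (k 1)) (V (k 2)))) *
          (T (br (U 0) (U 2)) * T (br (U 1) (U 3))) := by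
        rw [e02, e13, e03, e12]; ring
    _ = _ := by ring

end Pool.Agent.Helper92.Fano
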